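import Pool.Agent.W46.HD.Tools
import Pool.Agent.Y244.HM.Stm

/-! # The lower bound for `phi`: linear dependence on the constant of the oracle
(adapted from `Pool.Agent.Y244.HM.Ktm`) -/

set_option autoImplicit false

open Finset
open scoped Classical

namespace Pool.Agent.Y587.HK
open Pool.Agent.W904.AK Pool.Agent.W46.HD Pool.Agent.W46.HM Pool.Agent.Y244.HM

/-- the final algebra -/
theorem ktl_alg (d b Gc C N L S a h P g0 g1 g2 g3 g4 K0 K3 f F2 F3 U ph e1 e2 e3 e4 e5 e6 : ℝ)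
    (hd : 0 ≤ d) (hb : 1 < b) (hG : 0 ≤ Gc) (hC : 0 ≤ C)
    (n1 : 0 ≤ e1)
    (b1 : e1 ≤ S) (b2 : e2 ≤ S) (b3 : e3 ≤ S) (b4 : e4 ≤ S) (b5 : e5 ≤ S) (b6 : e6 ≤ S)
    (x0 : 3 * a - 2 * h + 3 * N - 5 * L ≤ f)
    (x1 : f + 3 * (N - L) - (6 + 2 * e5 + 2 * e4 + e2 + e1) ≤ F2 + U)
    (x2 : F3 ≤ f + N + (15 + 2 * e1 + 2 * e4))
    (x3 : F3 ≤ g1 + d * (12 + e3 + e2 + e1 + e5 + e4) + d * (3 + e6))
    (x4 : K0 ≤ K3 + N + (15 + 2 * e1 + 2 * e4)) (x4' : K3 ≤ 3 * N)
    (x5 : F2 + g0 ≤ F3 + g3) (x6 : F2 + g1 ≤ F3 + g4)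
    (x7 : g2 ≤ h + ph + K0 + N + (3 + 2 * e5 + 2 * e4) + d * (6 + 2 * e4))
    (x8 : F3 - f + P + K3 + a - 2 * h - L - d * (12 + e3 + e2 + e1 + e5 + e4) ≤ g0)
    (orc : g1 - g0 ≤ b * (g2 - g3) + Gc * (N - (g4 - g1)) + ((g3 - g0) - (g4 - g1)) + C) :
    (N - U) + (N - (F2 - F3)) ≤ 3 * L + (C + 1000 * (d + 1) * (b + Gc + 1) * (1 + S)) ∧
    3 * a - 2 * h + (b - 1) * (a + P - 2 * h) ≤
      b * (h + ph) + Gc * (N - (F2 - F3)) - b * (N - U) + (4 * b + 4) * L +
        (C + 1000 * (d + 1) * (b + Gc + 1) * (1 + S)) := by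
  have hS : 0 ≤ S := n1.trans b1
  have hb0 : 0 ≤ b := by linarith
  have dE : d * (12 + e3 + e2 + e1 + e5 + e4) ≤ d * (12 + 5 * S) := by
    apply mul_le_mul_of_nonneg_left _ hd; linarith
  have dE6 : d * (3 + e6) ≤ d * (3 + S) := by
    apply mul_le_mul_of_nonneg_left _ hd; linarith
  have dE4 : d * (6 + 2 * e4) ≤ d * (6 + 2 * S) := by
    apply mul_le_mul_of_nonneg_left _ hd; linarith
  obtain ⟨u, hu⟩ : ∃ u, u = F2 - F3 := ⟨_, rfl⟩
  rw [← hu]
  obtain ⟨m, hm⟩ : ∃ m, m = F3 - f := ⟨_, rfl⟩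
  have u2 : 3 * (N - L) - U - u - (6 + 6 * S) ≤ m := by linarith
  have u3 : m ≤ N + (15 + 4 * S) := by linarith
  have y1 : f + m - g0 - (d * (12 + 5 * S) + d * (3 + S)) ≤ g1 - g0 := by linarith
  have y2 : g2 - g0 - u ≤ h + ph + K3 + 2 * N + (18 + 8 * S) + d * (6 + 2 * S) - u - g0 := by
    linarith
  have y3 : N - (g4 - g1) ≤ N - u := by linarith
  have y4 : m + P + K3 + a - 2 * h - L - d * (12 + 5 * S) ≤ g0 := by linarith
  have m1 := mul_le_mul_of_nonneg_left y2 hb0
  have m2 := mul_le_mul_of_nonneg_left y3 hG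
  have m3 := mul_le_mul_of_nonneg_left y4 (by linarith : 0 ≤ b - 1)
  have m4 : 0 ≤ (b - 1) * (g3 - g0 - u) := mul_nonneg (by linarith) (by linarith)
  have m4' : 0 ≤ g4 - g1 - u := by linarith
  have m5 := mul_le_mul_of_nonneg_left u2 hb0
  clear x1 x2 x3 x4 x5 x6 x7 x8 b1 b2 b3 b4 b5 b6 dE dE6 dE4 y2 y3 y4 hu hm n1
  have v1 : 0 ≤ d * S := mul_nonneg hd hS
  have v2 : 0 ≤ b * S := mul_nonneg hb0 hS
  have v3 : 0 ≤ C * S := mul_nonneg hC hS
  have v4 : 0 ≤ b * d := mul_nonneg hb0 hd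
  have v5 : 0 ≤ b * (d * S) := mul_nonneg hb0 v1
  have v6 : 0 ≤ C * d := mul_nonneg hC hd
  have v7 : 0 ≤ C * (d * S) := mul_nonneg hC v1
  have v8 : 0 ≤ Gc * d := mul_nonneg hG hd
  have v9 : 0 ≤ Gc * (d * S) := mul_nonneg hG v1
  have v10 : 0 ≤ Gc * S := mul_nonneg hG hS
  have e : 1000 * (d + 1) * (b + Gc + 1) * (1 + S) =
      1000 * (b * d) + 1000 * (Gc * d) + 1000 * d + 1000 * b + 1000 * Gc +
      1000 + 1000 * (b * (d * S)) + 1000 * (Gc * (d * S)) +
      1000 * (d * S) + 1000 * (b * S) + 1000 * (Gc * S) + 1000 * S := by ring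
  rw [e]
  refine ⟨by linarith, ?_⟩
  have e1' : b * (h + ph + K3 + 2 * N + (18 + 8 * S) + d * (6 + 2 * S) - u - g0) =
      b * (h + ph) + b * K3 + 2 * (b * N) + 18 * b + 8 * (b * S) + 6 * (b * d) +
        2 * (b * (d * S)) - b * u - b * g0 := by ring
  have e1'' : b * (g2 - g0 - u) = b * (g2 - g3) + b * (g3 - g0 - u) := by ring
  have e2' : Gc * (N - u) = Gc * N - Gc * u := by ring
  have e3' : (b - 1) * (m + P + K3 + a - 2 * h - L - d * (12 + 5 * S)) =
      (b - 1) * (a + P - 2 * h) + b * m - m + b * K3 - K3 - b * L + L - 12 * (b * d) -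
        5 * (b * (d * S)) + 12 * d + 5 * (d * S) := by ring
  have e3'' : (b - 1) * g0 = b * g0 - g0 := by ring
  have e4' : (b - 1) * (g3 - g0 - u) = b * (g3 - g0 - u) - (g3 - g0 - u) := by ring
  have e5' : b * (3 * (N - L) - U - u - (6 + 6 * S)) =
      3 * (b * N) - 3 * (b * L) - b * U - b * u - 6 * b - 6 * (b * S) := by ring
  have e6' : (4 * b + 4) * L = 4 * (b * L) + 4 * L := by ring
  have e7' : d * (12 + 5 * S) + d * (3 + S) = 15 * d + 6 * (d * S) := by ring
  have e8' : b * (N - U) = b * N - b * U := by ring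
  rw [e1', e1''] at m1
  rw [e2'] at m2
  rw [e3', e3''] at m3
  rw [e4'] at m4
  rw [e5'] at m5
  rw [e2', e6', e8']
  rw [e7'] at y1
  linarith

/-- The lower bound for `phi`. -/
def S_KTL : Prop := ∀ (d : ℕ) (b G : ℝ), 1 < b → 0 ≤ G → ∃ C' : ℝ, 0 ≤ C' ∧ ∀ C : ℝ, 0 ≤ C →
    ∀ (n : ℕ) (Ω : Type) [Fintype Ω] (A D : Ω → Fin d → ℝ), IsFam n D → OrM n A D b G C →
    ∀ (p : Ω × Fin n → ℝ), IsLaw p →
    ∀ (Θ : Type) [Fintype Θ] (q : Θ → ℝ) (l1 l2 l3 : Θ → Ω) (s0 s1 t t' τ v : Θ → Fin n),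
    CfgT A D p q l1 l2 l3 s0 s1 t t' τ v →
    ∃ w : ℝ, wT q l1 l3 s0 s1 t t' + w ≤ 3 * lam p + (C + C' * (1 + sep p)) ∧
    3 * aa p - 2 * hh A D p + (b - 1) * (aa p +
      (H q (fun z => (s0 z, s1 z, v z, cell A D (s0 z) (l1 z), cell A D (v z) (l2 z))) -
        H q (fun z => (s0 z, s1 z, v z))) - 2 * hh A D p) ≤
      b * (hh A D p + ph A D q l1 l3 s0 s1 t t') + G * w - b * wT q l1 l3 s0 s1 t t' +
        (4 * b + 4) * lam p + (C + C' * (1 + sep p))

theorem KTL (hCOST : S_COST) (hINT : S_INT) (hOC : S_OCM) (hG0 : S_G0) (hG1 : S_G1)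
    (hG3 : S_G3) (hG4 : S_G4) (hG5 : S_G5) (hG6 : S_G6) (hG9 : S_G9) : S_KTL := by
  intro d b Gc hb hGc
  refine ⟨1000 * ((d : ℝ) + 1) * (b + Gc + 1), by positivity, ?_⟩
  intro C hC n Ω _ A D hfam hO p hp Θ _ q l1 l2 l3 s0 s1 t t' τ v hc
  have hq := hc.law
  obtain ⟨Y, hY⟩ : ∃ Y : Θ → ℤ, Y = fun z => yy (s0 z) (s1 z) (t z) (t' z) := ⟨_, rfl⟩
  obtain ⟨Z, hZ⟩ : ∃ Z : Θ → Fin d → ℤ, Z = fun z => cz A D (s1 z) (Y z) (l1 z) (l3 z) := ⟨_, rfl⟩
  obtain ⟨M, hM⟩ : ∃ M : Θ → ℤ, M = fun z => mm (s1 z) (v z) (τ z) (Y z) := ⟨_, rfl⟩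
  obtain ⟨G, hG⟩ : ∃ G : Θ → Fin d → ℤ, G = fun z => cz A D (v z) (M z) (l2 z) (l3 z) := ⟨_, rfl⟩
  have hph : ph A D q l1 l3 s0 s1 t t' = H q (fun z => (s0 z, s1 z, Y z, Z z)) -
      H q (fun z => (s0 z, s1 z, Y z)) := by
    simp only [ph, hZ, hY]
  have hMd : ∀ x y, s1 x = s1 y → v x = v y → τ x = τ y → Y x = Y y → M x = M y := by
    intro x y h1 h2 h3 h4
    simp only [hM, h1, h2, h3, h4]
  have hGd : ∀ x y, v x = v y → M x = M y → l2 x = l2 y → l3 x = l3 y → G x = G y := by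
    intro x y h1 h2 h3 h4
    simp only [hG, h1, h2, h3, h4]
  -- abbreviations for the expectations
  obtain ⟨e1, he1⟩ : ∃ e1, e1 = EE q (fun z => psi n (t z) (s0 z)) := ⟨_, rfl⟩
  obtain ⟨e2, he2⟩ : ∃ e2, e2 = EE q (fun z => psi n (t z) (s1 z)) := ⟨_, rfl⟩
  obtain ⟨e3, he3⟩ : ∃ e3, e3 = EE q (fun z => psi n (t' z) (s0 z)) := ⟨_, rfl⟩
  obtain ⟨e4, he4⟩ : ∃ e4, e4 = EE q (fun z => psi n (τ z) (s1 z)) := ⟨_, rfl⟩
  obtain ⟨e5, he5⟩ : ∃ e5, e5 = EE q (fun z => psi n (τ z) (v z)) := ⟨_, rfl⟩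
  obtain ⟨e6, he6⟩ : ∃ e6, e6 = EE q (fun z => psi n (s0 z) (s1 z)) := ⟨_, rfl⟩
  have b1 : e1 ≤ sep p := he1 ▸ hc.c2
  have b2 : e2 ≤ sep p := he2 ▸ hc.c3
  have b3 : e3 ≤ sep p := he3 ▸ hc.c4
  have b4 : e4 ≤ sep p := he4 ▸ hc.c5
  have b5 : e5 ≤ sep p := he5 ▸ hc.c6
  have b6 : e6 ≤ sep p := he6 ▸ hc.c1
  have hpn : ∀ (i j : Fin n), 0 ≤ psi n i j := fun i j => psi_nonneg i.2 j.2
  have n1 : 0 ≤ e1 := by
    rw [he1]; exact Finset.sum_nonneg fun z _ => mul_nonneg (hq.nonneg z) (hpn _ _)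
  have hd : (0 : ℝ) ≤ d := Nat.cast_nonneg d
  have h9 := fun z => hG9 n (s0 z) (s1 z) (t z) (t' z) (v z) (τ z) (s0 z).2 (s1 z).2 (t z).2
    (t' z).2 (v z).2 (τ z).2
  have h9Y : ∀ z, |Y z| ≤ (n : ℤ) ^ 2 + 1 := fun z => by rw [hY]; exact (h9 z).1
  have h9p : ∀ z, phi n (M z) ≤ 6 + psi n (t' z) (s0 z) + psi n (t z) (s1 z) + psi n (t z) (s0 z) +
      psi n (τ z) (v z) + psi n (τ z) (s1 z) := by
    intro z
    have h1 := (h9 z).2.1
    have h2 := ((h9 z).2.2.2 (Y z)).1
    have h3 : phi n (Y z) ≤ 3 + psi n (t' z) (s0 z) + psi n (t z) (s1 z) + psi n (t z) (s0 z) := by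
      rw [hY]; exact h1
    rw [hM]
    dsimp only
    linarith
  -- H M
  have hHM : H q M ≤ Real.log n + (15 + 2 * e1 + 2 * e4) := by
    have h := hINT Θ q M n hq hfam.pos
    have h2 : EE q (fun z => Real.log (1 + |(M z : ℝ)| / n)) ≤ 6 + e1 + e4 := by
      have h3 : EE q (fun z => (6 + psi n (t z) (s0 z)) + psi n (τ z) (s1 z)) = 6 + e1 + e4 := by
        rw [EE_add (fun z => 6 + psi n (t z) (s0 z)) (fun z => psi n (τ z) (s1 z)),
          EE_add (fun z => (6 : ℝ)) (fun z => psi n (t z) (s0 z)), EE_const hq, he1, he4]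
      rw [← h3]
      refine EE_mono hq fun z _ => ?_
      have h4 := (h9 z).2.2.1
      have h5 := ((h9 z).2.2.2 (Y z)).2
      have h6 : Real.log (1 + |(Y z : ℝ)| / n) ≤ 3 + psi n (t z) (s0 z) := by
        rw [hY]; exact h4
      rw [hM]
      dsimp only
      linarith
    have h3 : ∑ x, q x * Real.log (1 + |(M x : ℝ)| / n) =
      EE q (fun z => Real.log (1 + |(M z : ℝ)| / n)) := rfl
    rw [h3] at h
    linarith
  -- cost of t'
  have ce : ∀ {α γ : Type} (f : Θ → α) (k : Θ → γ), Det q f (fun z => (s0 z, s1 z, t z, Y z)) →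
      Det q (fun z => (f z, t' z)) k → H q k ≤ H q f + (3 + e2 + e1) := by
    intro α γ f k hf hk
    have h := cost hCOST hq (f := f) (g := t') (k := k)
      (fun z => 3 + psi n (t z) (s1 z) + psi n (t z) (s0 z)) hk (by
        intro x hx
        obtain ⟨T, hT1, hT2⟩ := hG6 n (s0 x) (s1 x) (t x) (s0 x).2 (s1 x).2 (t x).2 (Y x)
        refine ⟨T, ?_, hT2⟩
        intro y hy hfy
        have h1 := hf y x hy hx hfy
        simp only [Prod.mk.injEq] at h1
        obtain ⟨h2, h3, h4, h5⟩ := h1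
        apply hT1
        rw [← h5, ← h2, ← h3, ← h4, hY])
    have h2 : EE q (fun z => 3 + psi n (t z) (s1 z) + psi n (t z) (s0 z)) = 3 + e2 + e1 := by
      rw [EE_add (fun z => 3 + psi n (t z) (s1 z)) (fun z => psi n (t z) (s0 z)),
        EE_add (fun z => (3 : ℝ)) (fun z => psi n (t z) (s1 z)), EE_const hq, he1, he2]
    rw [h2] at h
    exact h
  -- cost of Y
  have cY : ∀ {α γ : Type} (f : Θ → α) (k : Θ → γ), Det q f (fun z => (s1 z, v z, τ z, M z)) →
      Det q (fun z => (f z, Y z)) k → H q k ≤ H q f + (3 + 2 * e5 + 2 * e4) := by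
    intro α γ f k hf hk
    have h := cost hCOST hq (f := f) (g := Y) (k := k)
      (fun z => 3 + 2 * psi n (τ z) (v z) + 2 * psi n (τ z) (s1 z)) hk (by
        intro x hx
        obtain ⟨T, hT1, hT2⟩ := hG5 n (s1 x) (v x) (τ x) (s1 x).2 (v x).2 (τ x).2 (M x)
        refine ⟨T, ?_, hT2⟩
        intro y hy hfy
        have h1 := hf y x hy hx hfy
        simp only [Prod.mk.injEq] at h1
        obtain ⟨h2, h3, h4, h5⟩ := h1
        apply hT1 _ (h9Y y)
        rw [← h5, ← h2, ← h3, ← h4, hM])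
    have h2 : EE q (fun z => 3 + 2 * psi n (τ z) (v z) + 2 * psi n (τ z) (s1 z)) =
        3 + 2 * e5 + 2 * e4 := by
      rw [EE_add (fun z => 3 + 2 * psi n (τ z) (v z)) (fun z => 2 * psi n (τ z) (s1 z)),
        EE_add (fun z => (3 : ℝ)) (fun z => 2 * psi n (τ z) (v z)), EE_const hq, EE_mul, EE_mul,
        he4, he5]
    rw [h2] at h
    exact h
  -- the expectation of the cost of l3
  have hEl3 : EE q (fun z => d * (3 + phi n (M z))) ≤ d * (12 + e3 + e2 + e1 + e5 + e4) := by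
    have h3 : EE q (fun z => d * (3 + phi n (M z))) ≤
        EE q (fun z => d * (((((12 + psi n (t' z) (s0 z)) + psi n (t z) (s1 z)) +
          psi n (t z) (s0 z)) + psi n (τ z) (v z)) + psi n (τ z) (s1 z))) := by
      refine EE_mono hq fun z _ => ?_
      have h4 := h9p z
      apply mul_le_mul_of_nonneg_left _ hd
      linarith
    refine h3.trans (le_of_eq ?_)
    rw [EE_mul, EE_add (fun z => (((12 + psi n (t' z) (s0 z)) + psi n (t z) (s1 z)) +
        psi n (t z) (s0 z)) + psi n (τ z) (v z)) (fun z => psi n (τ z) (s1 z)),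
      EE_add (fun z => ((12 + psi n (t' z) (s0 z)) + psi n (t z) (s1 z)) +
        psi n (t z) (s0 z)) (fun z => psi n (τ z) (v z)),
      EE_add (fun z => (12 + psi n (t' z) (s0 z)) + psi n (t z) (s1 z))
        (fun z => psi n (t z) (s0 z)), EE_add (fun z => (12 + psi n (t' z) (s0 z)))
        (fun z => psi n (t z) (s1 z)), EE_add (fun z => (12 : ℝ)) (fun z => psi n (t' z) (s0 z)),
      EE_const hq, he1, he2, he3, he4, he5]
  -- cost of l3 given G and the cell of l2 at v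
  have cl3 : ∀ {α γ : Type} (f : Θ → α) (k : Θ → γ),
      Det q f (fun z => (M z, G z, cell A D (v z) (l2 z))) →
      Det q (fun z => (f z, l3 z)) k → H q k ≤ H q f + d * (12 + e3 + e2 + e1 + e5 + e4) := by
    intro α γ f k hf hk
    have h := cost hCOST hq (f := f) (g := l3) (k := k) (fun z => d * (3 + phi n (M z))) hk (by
        intro x hx
        refine ⟨Finset.univ.filter fun ω => ∃ u : Fin d → ℝ,
          (∀ i, ⌊u i⌋ = cell A D (v x) (l2 x) i) ∧ ∀ i, ⌊u i + (M x : ℝ) * D ω i⌋ = G x i, ?_, ?_⟩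
        · intro y hy hfy
          have h1 := hf y x hy hx hfy
          simp only [Prod.mk.injEq] at h1
          obtain ⟨h2, h3, h4⟩ := h1
          rw [Finset.mem_filter]
          refine ⟨Finset.mem_univ _, fun i => A (l2 y) i + ((v y : ℕ) : ℝ) * D (l2 y) i,
            fun i => ?_, fun i => ?_⟩
          · rw [← h4]; rfl
          · rw [← h3, ← h2, hG]; rfl
        · refine hG3 d n Ω D hfam (M x) (cell A D (v x) (l2 x)) (G x) _ ?_
          intro ω hω
          exact (Finset.mem_filter.mp hω).2)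
    linarith
  -- cost of l1 given l2, l3
  have cl1 : ∀ {α γ : Type} (f : Θ → α) (k : Θ → γ),
      Det q f (fun z => (l2 z, l3 z, s0 z, s1 z)) →
      Det q (fun z => (f z, l1 z)) k → H q k ≤ H q f + d * (3 + e6) := by
    intro α γ f k hf hk
    have h := cost hCOST hq (f := f) (g := l1) (k := k)
      (fun z => d * (3 + psi n (s0 z) (s1 z))) hk (by
        intro x hx
        refine ⟨Finset.univ.filter fun ω => cell A D (s0 x) ω = cell A D (s0 x) (l3 x) ∧
          cell A D (s1 x) ω = cell A D (s1 x) (l2 x), ?_, ?_⟩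
        · intro y hy hfy
          have h1 := hf y x hy hx hfy
          simp only [Prod.mk.injEq] at h1
          obtain ⟨h2, h3, h4, h5⟩ := h1
          rw [Finset.mem_filter]
          refine ⟨Finset.mem_univ _, ?_, ?_⟩
          · rw [← h4, ← h3]; exact hc.i0 y hy
          · rw [← h5, ← h2]; exact hc.i1 y hy
        · refine hG1 d n Ω A D hfam (s0 x) (s1 x) (s0 x).2 (s1 x).2
            (cell A D (s0 x) (l3 x)) (cell A D (s1 x) (l2 x)) _ ?_
          intro ω hω
          exact (Finset.mem_filter.mp hω).2)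
    have h2 : EE q (fun z => d * (3 + psi n (s0 z) (s1 z))) = d * (3 + e6) := by
      rw [EE_mul, EE_add (fun z => (3 : ℝ)) (fun z => psi n (s0 z) (s1 z)), EE_const hq, he6]
    rw [h2] at h
    exact h
  -- cost of G
  have cg : H q (fun z => ((s0 z, s1 z, v z, M z, G z), τ z, cell A D (τ z) (l2 z))) ≤
      H q (fun z => (((s0 z, s1 z, v z, M z, τ z, Y z), Z z), τ z, cell A D (τ z) (l2 z))) +
        d * (6 + 2 * e4) := by
    have h := cost hCOST hq (f := fun z => (((s0 z, s1 z, v z, M z, τ z, Y z), Z z), τ z,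
        cell A D (τ z) (l2 z))) (g := G)
      (k := fun z => ((s0 z, s1 z, v z, M z, G z), τ z, cell A D (τ z) (l2 z)))
      (fun z => d * (6 + 2 * psi n (τ z) (s1 z))) (by
        intro x y _ _ h
        simp only [Prod.mk.injEq] at h ⊢
        tauto) (by
        intro x hx
        by_cases hts : (τ x : ℕ) = (s1 x : ℕ)
        · -- degenerate case
          refine ⟨Finset.univ.image fun w : Ω × Ω => cz A D (v x) (M x) w.1 w.2, ?_, ?_⟩
          · intro y hy hfy
            simp only [Prod.mk.injEq] at hfy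
            obtain ⟨⟨⟨h1, h2, h3, h4, h5, h6⟩, h7⟩, h8, h10⟩ := hfy
            rw [Finset.mem_image]
            refine ⟨(l2 y, l3 y), Finset.mem_univ _, ?_⟩
            rw [← h3, ← h4]
            simp only [hG]
          · have h0 := hG0 d n Ω D hfam
            have hpos : 0 < (Finset.univ.image
                fun w : Ω × Ω => cz A D (v x) (M x) w.1 w.2).card :=
              Finset.card_pos.mpr ⟨_, Finset.mem_image_of_mem _ (Finset.mem_univ (l1 x, l3 x))⟩
            have hle : (Finset.univ.image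
                fun w : Ω × Ω => cz A D (v x) (M x) w.1 w.2).card ≤
                Fintype.card Ω * Fintype.card Ω := by
              refine Finset.card_image_le.trans ?_
              rw [Finset.card_univ, Fintype.card_prod]
            have hcΩ : 0 < Fintype.card Ω := Fintype.card_pos_iff.mpr ⟨l1 x⟩
            have h1 : Real.log ((Finset.univ.image
                fun w : Ω × Ω => cz A D (v x) (M x) w.1 w.2).card : ℝ) ≤
                Real.log (Fintype.card Ω) + Real.log (Fintype.card Ω) := by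
              rw [← Real.log_mul (by positivity) (by positivity)]
              apply Real.log_le_log (by exact_mod_cast hpos)
              exact_mod_cast hle
            have h2 : psi n (τ x) (s1 x) = Real.log n := by
              unfold psi
              rw [hts, sub_self, abs_zero, max_eq_left zero_le_one, div_one]
            rw [h2]
            nlinarith
        · -- generic case
          have htsr : ((τ x : ℕ) : ℝ) ≠ ((s1 x : ℕ) : ℝ) := fun h => hts (by exact_mod_cast h)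
          set ρ : ℝ := (((v x : ℕ) : ℝ) - (s1 x : ℕ)) / (((τ x : ℕ) : ℝ) - (s1 x : ℕ)) with hρ
          obtain ⟨T, hT1, hT2⟩ := comb_cell hG4 ρ (cell A D (τ x) (l2 x)) (Z x)
          refine ⟨T, ?_, ?_⟩
          · intro y hy hfy
            simp only [Prod.mk.injEq] at hfy
            obtain ⟨⟨⟨h1, h2, h3, h4, h5, h6⟩, h7⟩, h8, h10⟩ := hfy
            have hinc := hc.i1 y hy
            have hmem := hT1 (fun i => A (l2 y) i + ((τ x : ℕ) : ℝ) * D (l2 y) i)
              (fun i => A (l1 y) i + ((s1 x : ℕ) : ℝ) * D (l1 y) i + (Y x : ℝ) * D (l3 y) i)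
              (fun i => (A (l2 y) i + ((s1 x : ℕ) : ℝ) * D (l2 y) i) -
                (A (l1 y) i + ((s1 x : ℕ) : ℝ) * D (l1 y) i))
              (fun i => ((M x : ℝ) - (1 - ρ) * (Y x : ℝ)) * D (l3 y) i)
              (fun i => A (l2 y) i + ((v x : ℕ) : ℝ) * D (l2 y) i + (M x : ℝ) * D (l3 y) i)
              (fun i => by
                have := congrFun h10 i
                rw [h5] at this
                simpa only [cell] using this)
              (fun i => by
                have := congrFun h7 i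
                rw [← this, ← h2, ← h6]
                simp only [hZ]
                rfl)
              (fun i => by
                have := congrFun hinc i
                rw [h2] at this
                simp only [cell] at this
                exact same_floor this.symm)
              (fun i => by
                have hr : |(M x : ℝ) - (1 - ρ) * (Y x : ℝ)| ≤ 1 / 2 := by
                  have hy1 : M x = round ((Y x : ℝ) * (((τ x : ℕ) : ℝ) - (v x : ℕ)) /
                      (((τ x : ℕ) : ℝ) - (s1 x : ℕ))) := by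
                    rw [hM]; rfl
                  have hy2 : (1 - ρ) * (Y x : ℝ) = (Y x : ℝ) * (((τ x : ℕ) : ℝ) - (v x : ℕ)) /
                      (((τ x : ℕ) : ℝ) - (s1 x : ℕ)) := by
                    have : ((τ x : ℕ) : ℝ) - (s1 x : ℕ) ≠ 0 := sub_ne_zero.mpr htsr
                    rw [hρ]
                    field_simp
                    ring
                  rw [hy2, hy1, abs_sub_comm]
                  exact abs_sub_round _
                rw [abs_mul, abs_of_nonneg (hfam.lo _ _)]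
                have h8 := hfam.hi (l3 y) i
                have h9 := hfam.lo (l3 y) i
                nlinarith [abs_nonneg ((M x : ℝ) - (1 - ρ) * (Y x : ℝ))])
              (fun i => by
                have h8 := pt_comb htsr (A (l2 y) i) (D (l2 y) i) ((v x : ℕ) : ℝ)
                rw [← hρ] at h8
                rw [h8]
                ring)
            have hgoal : G y = fun i => ⌊A (l2 y) i + ((v x : ℕ) : ℝ) * D (l2 y) i +
                (M x : ℝ) * D (l3 y) i⌋ := by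
              rw [← h3, ← h4]
              simp only [hG]
              rfl
            rw [hgoal]
            exact hmem
          · refine hT2.trans ?_
            have h1 := log_ratio (τ x).2 (s1 x).2 (v x).2 hts
            have h2 := hpn (τ x) (s1 x)
            apply mul_le_mul_of_nonneg_left _ hd
            rw [hρ]
            linarith)
    refine h.trans ?_
    have h2 : EE q (fun z => d * (6 + 2 * psi n (τ z) (s1 z))) = d * (6 + 2 * e4) := by
      rw [EE_mul, EE_add (fun z => (6 : ℝ)) (fun z => 2 * psi n (τ z) (s1 z)), EE_const hq,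
        EE_mul, he4]
    linarith
  -- heights
  have ht := H_height hq t
  have hτ := H_height hq τ
  have hv := H_height hq v
  have hs0 := H_height hq s0
  have hs1 := H_height hq s1
  -- entropy relations
  have r1 := ce (fun z => (l1 z, l2 z, l3 z, s0 z, s1 z, v z, t z, τ z, M z, Y z))
    (fun z => (l1 z, l2 z, l3 z, s0 z, s1 z, v z, t z, τ z, t' z)) (by
      intro x y _ _ h; simp only [Prod.mk.injEq] at h ⊢; tauto) (by
      intro x y _ _ h; simp only [Prod.mk.injEq] at h ⊢; tauto)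
  have r2 := cY (fun z => (l1 z, l2 z, l3 z, s0 z, s1 z, v z, τ z, M z))
    (fun z => (l1 z, l2 z, l3 z, s0 z, s1 z, v z, τ z, M z, Y z)) (by
      intro x y _ _ h; simp only [Prod.mk.injEq] at h ⊢; tauto) (by
      intro x y _ _ h; simp only [Prod.mk.injEq] at h ⊢; tauto)
  have r3 : H q (fun z => (l1 z, l2 z, l3 z, s0 z, s1 z, v z, t z, τ z, M z, Y z)) +
      H q (fun z => (l1 z, l3 z, s0 z, s1 z, Y z)) ≤
      H q (fun z => (l1 z, l2 z, l3 z, s0 z, s1 z, v z, τ z, M z, Y z)) +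
        H q (fun z => (l1 z, l3 z, s0 z, s1 z, Y z, t z)) := submod' hq
      (by intro x y _ _ h; simp only [Prod.mk.injEq] at h ⊢; tauto)
      (by intro x y _ _ h; simp only [Prod.mk.injEq] at h ⊢; tauto)
      (by intro x y _ _ h; simp only [Prod.mk.injEq] at h ⊢; tauto)
  have r4 : H q (fun z => (l1 z, l2 z, l3 z, s0 z, s1 z, v z, τ z, M z)) ≤
      H q (fun z => (l1 z, l2 z, l3 z, s0 z, s1 z, v z, M z)) + H q τ := subadd hq (by
      intro x y _ _ h; simp only [Prod.mk.injEq] at h ⊢; tauto)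
  have r5 : H q (fun z => (l1 z, l2 z, l3 z, s0 z, s1 z, v z, M z)) ≤
      H q (fun z => (l1 z, l2 z, l3 z, s0 z, s1 z, v z)) + H q M := subadd hq (by
      intro x y _ _ h; simp only [Prod.mk.injEq] at h ⊢; tauto)
  have r6 : H q (fun z => (v z, M z)) ≤ H q v + H q M := subadd hq (by
      intro x y _ _ h; simp only [Prod.mk.injEq] at h ⊢; tauto)
  have r7 : H q (fun z => (l1 z, l2 z, l3 z, s0 z, s1 z, v z)) ≤
      H q (fun z => (l1 z, l2 z, l3 z, s0 z, s1 z)) + H q v := subadd hq (by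
      intro x y _ _ h; simp only [Prod.mk.injEq] at h ⊢; tauto)
  have r8 : H q (fun z => (s0 z, s1 z, v z, M z)) ≤
      H q (fun z => (s0 z, s1 z, v z)) + H q M := subadd hq (by
      intro x y _ _ h; simp only [Prod.mk.injEq] at h ⊢; tauto)
  have r9 : H q (fun z => (s0 z, s1 z, v z)) ≤ H q s0 + H q (fun z => (s1 z, v z)) :=
    subadd hq (by intro x y _ _ h; simp only [Prod.mk.injEq] at h ⊢; tauto)
  have r10 : H q (fun z => (s1 z, v z)) ≤ H q s1 + H q v :=
    subadd hq (by intro x y _ _ h; simp only [Prod.mk.injEq] at h ⊢; tauto)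
  have r11 := cl3 (fun z => ((s0 z, s1 z, v z, M z, G z), l2 z))
    (fun z => (((s0 z, s1 z, v z, M z, G z), l2 z), l3 z)) (by
      intro x y _ _ h
      simp only [Prod.mk.injEq] at h ⊢
      obtain ⟨⟨h1, h2, h3, h4, h5⟩, h6⟩ := h
      exact ⟨h4, h5, by rw [h3, h6]⟩) (by
      intro x y _ _ h; simp only [Prod.mk.injEq] at h ⊢; tauto)
  have r12 := cl1 (fun z => (((s0 z, s1 z, v z, M z, G z), l2 z), l3 z))
    (fun z => (l1 z, l2 z, l3 z, s0 z, s1 z, v z, M z)) (by
      intro x y _ _ h; simp only [Prod.mk.injEq] at h ⊢; tauto) (by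
      intro x y _ _ h; simp only [Prod.mk.injEq] at h ⊢; tauto)
  have r13 : H q (fun z => (l1 z, l2 z, l3 z, s0 z, s1 z, v z, τ z, M z)) +
      H q (fun z => (s0 z, s1 z, v z, M z, G z)) ≤
      H q (fun z => (l1 z, l2 z, l3 z, s0 z, s1 z, v z, M z)) +
      H q (fun z => ((s0 z, s1 z, v z, M z, G z), τ z)) :=
    submod' hq (by
      intro x y _ _ h
      simp only [Prod.mk.injEq] at h ⊢
      obtain ⟨h1, h2, h3, h4, h5, h6, h7⟩ := h
      exact ⟨h4, h5, h6, h7, hGd x y h6 h7 h2 h3⟩)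
      (by intro x y _ _ h; simp only [Prod.mk.injEq] at h ⊢; tauto)
      (by intro x y _ _ h; simp only [Prod.mk.injEq] at h ⊢; tauto)
  have r14 : H q (fun z => (l1 z, l2 z, l3 z, s0 z, s1 z, v z, τ z, M z)) +
      H q (fun z => ((s0 z, s1 z, v z, M z, G z), l2 z)) ≤
      H q (fun z => (l1 z, l2 z, l3 z, s0 z, s1 z, v z, M z)) +
      H q (fun z => ((s0 z, s1 z, v z, M z, G z), l2 z, τ z)) :=
    submod' hq (by
      intro x y _ _ h
      simp only [Prod.mk.injEq] at h ⊢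
      obtain ⟨h1, h2, h3, h4, h5, h6, h7⟩ := h
      exact ⟨⟨h4, h5, h6, h7, hGd x y h6 h7 h2 h3⟩, h2⟩)
      (by intro x y _ _ h; simp only [Prod.mk.injEq] at h ⊢; tauto)
      (by intro x y _ _ h; simp only [Prod.mk.injEq] at h ⊢; tauto)
  have r15 : H q (fun z => (((s0 z, s1 z, v z, M z, τ z, Y z), Z z), τ z,
        cell A D (τ z) (l2 z))) + H q τ ≤
      H q (fun z => ((s0 z, s1 z, v z, M z, τ z, Y z), Z z)) +
      H q (fun z => (τ z, cell A D (τ z) (l2 z))) :=
    submod' hq (by intro x y _ _ h; simp only [Prod.mk.injEq] at h ⊢; tauto)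
      (by intro x y _ _ h; simp only [Prod.mk.injEq] at h ⊢; tauto)
      (by intro x y _ _ h; simp only [Prod.mk.injEq] at h ⊢; tauto)
  have r16 : H q (fun z => ((s0 z, s1 z, v z, M z, τ z, Y z), Z z)) +
      H q (fun z => (s0 z, s1 z, Y z)) ≤
      H q (fun z => (s0 z, s1 z, v z, M z, τ z, Y z)) +
      H q (fun z => (s0 z, s1 z, Y z, Z z)) :=
    submod' hq (by intro x y _ _ h; simp only [Prod.mk.injEq] at h ⊢; tauto)
      (by intro x y _ _ h; simp only [Prod.mk.injEq] at h ⊢; tauto)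
      (by intro x y _ _ h; simp only [Prod.mk.injEq] at h ⊢; tauto)
  have r17 := cY (fun z => (s0 z, s1 z, v z, M z, τ z))
    (fun z => (s0 z, s1 z, v z, M z, τ z, Y z)) (by
      intro x y _ _ h; simp only [Prod.mk.injEq] at h ⊢; tauto) (by
      intro x y _ _ h; simp only [Prod.mk.injEq] at h ⊢; tauto)
  have r18 : H q (fun z => (s0 z, s1 z, v z, M z, τ z)) ≤
      H q (fun z => (s0 z, s1 z, v z, M z)) + H q τ := subadd hq (by
      intro x y _ _ h; simp only [Prod.mk.injEq] at h ⊢; tauto)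
  have r19 : H q (fun z => ((s0 z, s1 z, v z, M z, G z), cell A D (v z) (l2 z))) +
      H q (fun z => (s0 z, s1 z, v z, M z)) ≤
      H q (fun z => (s0 z, s1 z, v z, M z, G z)) +
      H q (fun z => (s0 z, s1 z, v z, M z, cell A D (v z) (l2 z))) :=
    submod' hq (by intro x y _ _ h; simp only [Prod.mk.injEq] at h ⊢; tauto)
      (by intro x y _ _ h; simp only [Prod.mk.injEq] at h ⊢; tauto)
      (by intro x y _ _ h; simp only [Prod.mk.injEq] at h ⊢; tauto)
  have r20 : H q (fun z => (s0 z, s1 z, v z, M z, cell A D (v z) (l2 z))) + H q v ≤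
      H q (fun z => (s0 z, s1 z, v z, M z)) + H q (fun z => (v z, cell A D (v z) (l2 z))) :=
    submod' hq (by intro x y _ _ h; simp only [Prod.mk.injEq] at h ⊢; tauto)
      (by intro x y _ _ h; simp only [Prod.mk.injEq] at h ⊢; tauto)
      (by intro x y _ _ h; simp only [Prod.mk.injEq] at h ⊢; tauto)
  have r21 := cl3 (fun z => ((s0 z, s1 z, v z, M z, G z), cell A D (v z) (l2 z)))
    (fun z => (s0 z, s1 z, v z, M z, cell A D (v z) (l2 z), l3 z)) (by
      intro x y _ _ h; simp only [Prod.mk.injEq] at h ⊢; tauto) (by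
      intro x y _ _ h; simp only [Prod.mk.injEq] at h ⊢; tauto)
  have r22 : H q (fun z => (l1 z, l2 z, l3 z, s0 z, s1 z, v z, M z)) +
      H q (fun z => (s0 z, s1 z, v z, cell A D (v z) (l2 z), l3 z)) ≤
      H q (fun z => (l1 z, l2 z, l3 z, s0 z, s1 z, v z)) +
      H q (fun z => (s0 z, s1 z, v z, M z, cell A D (v z) (l2 z), l3 z)) :=
    submod' hq (by
      intro x y _ _ h
      simp only [Prod.mk.injEq] at h ⊢
      obtain ⟨h1, h2, h3, h4, h5, h6⟩ := h
      exact ⟨h4, h5, h6, by rw [h6, h2], h3⟩)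
      (by intro x y _ _ h; simp only [Prod.mk.injEq] at h ⊢; tauto)
      (by intro x y _ _ h; simp only [Prod.mk.injEq] at h ⊢; tauto)
  have orc := hOC d n Ω A D b Gc C hO Θ _ q l2 τ (fun z => (s0 z, s1 z, v z, M z, G z)) hq
  have hf3 := hc.f3
  have hf4 := hc.f4
  have htl := hc.tl
  have hmar := hc.mar
  have hhτ := hc.hτ
  have hhv := hc.hv
  have hw : wT q l1 l3 s0 s1 t t' = Real.log n -
      (H q (fun z => (l1 z, l3 z, s0 z, s1 z, Y z, t z)) -
        H q (fun z => (l1 z, l3 z, s0 z, s1 z, Y z))) := by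
    simp only [wT, hY]
  rw [hph, hw]
  refine ⟨Real.log n - (H q (fun z => (l1 z, l2 z, l3 z, s0 z, s1 z, v z, τ z, M z)) -
    H q (fun z => (l1 z, l2 z, l3 z, s0 z, s1 z, v z, M z))), ?_⟩
  refine ktl_alg d b Gc C (Real.log n) (lam p) (sep p) (aa p) (hh A D p) _
    (H q (fun z => (s0 z, s1 z, v z, M z, G z)))
    (H q (fun z => ((s0 z, s1 z, v z, M z, G z), l2 z)))
    (H q (fun z => ((s0 z, s1 z, v z, M z, G z), τ z, cell A D (τ z) (l2 z))))
    (H q (fun z => ((s0 z, s1 z, v z, M z, G z), τ z)))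
    (H q (fun z => ((s0 z, s1 z, v z, M z, G z), l2 z, τ z)))
    (H q (fun z => (s0 z, s1 z, v z, M z)))
    (H q (fun z => (s0 z, s1 z, v z)))
    (H q (fun z => (l1 z, l2 z, l3 z, s0 z, s1 z, v z)))
    (H q (fun z => (l1 z, l2 z, l3 z, s0 z, s1 z, v z, τ z, M z)))
    (H q (fun z => (l1 z, l2 z, l3 z, s0 z, s1 z, v z, M z)))
    (H q (fun z => (l1 z, l3 z, s0 z, s1 z, Y z, t z)) -
        H q (fun z => (l1 z, l3 z, s0 z, s1 z, Y z))) _ e1 e2 e3 e4 e5 e6 hd hb hGc hC n1
    b1 b2 b3 b4 b5 b6 hf4 ?_ ?_ ?_ ?_ ?_ r13 r14 ?_ ?_ orc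
  · linarith
  · linarith
  · linarith
  · linarith
  · linarith
  · linarith
  · linarith

end Pool.Agent.Y587.HK
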