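import Pool.Agent.W46.HD.Tools
import Pool.Agent.Y244.HM.Stm

/-! # The upper bound for `phi`: linear dependence on the constant of the oracle
(adapted from `Pool.Agent.Y244.HM.Upm`) -/

set_option autoImplicit false

open Finset
open scoped Classical

namespace Pool.Agent.Y587.HK
open Pool.Agent.W904.AK Pool.Agent.W46.HD Pool.Agent.W46.HM Pool.Agent.Y244.HM

/-- the final algebra -/
theorem upl_alg (d b G C N L S a h x6 f X W q0 q1 q2 q3 q4 hSY h1Y R R1 R2 P1 P0 e1 e2 e3 hs0 hs1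
    ht HY : ℝ)
    (hd : 0 ≤ d) (hb : 1 < b) (hG : 0 ≤ G) (hC : 0 ≤ C)
    (n1 : 0 ≤ e1) (n2 : 0 ≤ e2) (n3 : 0 ≤ e3)
    (b1 : e1 ≤ S) (b2 : e2 ≤ S) (b3 : e3 ≤ S)
    (t1 : ht ≤ N) (t2 : hs0 ≤ N) (t3 : hs1 ≤ N) (t4 : HY ≤ N + 9 + 2 * e1)
    (f1 : f + 2 * (N - L) ≤ x6) (f2 : 2 * a - h + 2 * N - 3 * L ≤ f)
    (r1 : x6 ≤ X + (3 + e2 + e1)) (r3 : W ≤ f + HY) (r4 : h1Y ≤ hs1 + HY) (r5 : hSY ≤ hs0 + h1Y)
    (r6 : R1 ≤ R2 + (3 + e2 + e1)) (r7 : R2 ≤ hSY + ht) (r8 : R + P0 ≤ R1 + P1)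
    (r9 : X + q0 ≤ W + q3) (r10 : X + q1 ≤ W + q4)
    (cf : W ≤ q1 + d * (6 + e3 + e2 + e1)) (cg : q2 ≤ R + d * (6 + 2 * e1))
    (orc : q1 - q0 ≤ b * (q2 - q3) + G * (N - (q4 - q1)) + ((q3 - q0) - (q4 - q1)) + C) :
    2 * a - h + (b - 1) * (q0 - hSY) ≤ b * (P1 - P0) + (b + G - 1) * (N - (X - W)) + 5 * L +
      (C + 1000 * (d + 1) * (b + G + 1) * (1 + S)) ∧
    N - (X - W) ≤ 2 * L + (C + 1000 * (d + 1) * (b + G + 1) * (1 + S)) := by
  have hS : 0 ≤ S := n1.trans b1
  have dE1 : d * (6 + e3 + e2 + e1) ≤ d * (6 + 3 * S) := by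
    apply mul_le_mul_of_nonneg_left _ hd; linarith
  have dE2 : d * (6 + 2 * e1) ≤ d * (6 + 2 * S) := by
    apply mul_le_mul_of_nonneg_left _ hd; linarith
  obtain ⟨u, hu⟩ : ∃ u, u = X - W := ⟨_, rfl⟩
  rw [← hu]
  have u1 : N - 2 * L - (12 + 4 * S) ≤ u := by linarith
  have k1 : q2 - q0 - u ≤ (P1 - P0) - (q0 - hSY) + N + (3 + 2 * S) + d * (6 + 2 * S) - u := by
    linarith
  have k2 : N - (q4 - q1) ≤ N - u := by linarith
  have k3 : 2 * a - h + 4 * N - 5 * L - (3 + 2 * S) - u - q0 - d * (6 + 3 * S) ≤ q1 - q0 := by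
    linarith
  have k4 : hSY ≤ 3 * N + 9 + 2 * S := by linarith
  have m1 := mul_le_mul_of_nonneg_left k1 (by linarith : 0 ≤ b)
  have m2 := mul_le_mul_of_nonneg_left k2 hG
  have m3 : 0 ≤ (b - 1) * (q3 - q0 - u) := mul_nonneg (by linarith) (by linarith)
  have m4 : 0 ≤ q4 - q1 - u := by linarith
  clear f1 f2 r1 r3 r4 r5 r6 r7 r8 r9 r10 cf cg k1 k2 t1 t2 t3 t4 dE1 dE2 b1 b2 b3 n1 n2 n3 hu
  have hb0 : 0 ≤ b := by linarith
  have v1 : 0 ≤ d * S := mul_nonneg hd hS
  have v2 : 0 ≤ b * S := mul_nonneg hb0 hS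
  have v3 : 0 ≤ C * S := mul_nonneg hC hS
  have v4 : 0 ≤ b * d := mul_nonneg hb0 hd
  have v5 : 0 ≤ b * (d * S) := mul_nonneg hb0 v1
  have v6 : 0 ≤ C * d := mul_nonneg hC hd
  have v7 : 0 ≤ C * (d * S) := mul_nonneg hC v1
  have v8 : 0 ≤ G * d := mul_nonneg hG hd
  have v9 : 0 ≤ G * (d * S) := mul_nonneg hG v1
  have v10 : 0 ≤ G * S := mul_nonneg hG hS
  have e : 1000 * (d + 1) * (b + G + 1) * (1 + S) =
      1000 * (b * d) + 1000 * (G * d) + 1000 * d + 1000 * b + 1000 * G +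
      1000 + 1000 * (b * (d * S)) + 1000 * (G * (d * S)) +
      1000 * (d * S) + 1000 * (b * S) + 1000 * (G * S) + 1000 * S := by ring
  rw [e]
  refine ⟨?_, by linarith⟩
  have e1' : b * ((P1 - P0) - (q0 - hSY) + N + (3 + 2 * S) + d * (6 + 2 * S) - u) =
      b * (P1 - P0) - b * (q0 - hSY) + b * N + 3 * b + 2 * (b * S) + 6 * (b * d) +
      2 * (b * (d * S)) - b * u := by ring
  have e1'' : b * (q2 - q0 - u) = b * (q2 - q3) + b * (q3 - q0 - u) := by ring
  have e2' : (b - 1) * (q3 - q0 - u) = b * (q3 - q0 - u) - (q3 - q0 - u) := by ring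
  have e4' : (b - 1) * (q0 - hSY) = b * (q0 - hSY) - (q0 - hSY) := by ring
  have e5' : (b + G - 1) * (N - u) = b * N - b * u + G * N - G * u - N + u := by ring
  have e6' : G * (N - u) = G * N - G * u := by ring
  rw [e1', e1''] at m1
  rw [e2'] at m3
  rw [e4', e5']
  rw [e6'] at m2
  linarith

/-- The upper bound for `phi`. -/
def S_UPL : Prop := ∀ (d : ℕ) (b G : ℝ), 1 < b → 0 ≤ G → ∃ C' : ℝ, 0 ≤ C' ∧ ∀ C : ℝ, 0 ≤ C →
    ∀ (n : ℕ) (Ω : Type) [Fintype Ω] (A D : Ω → Fin d → ℝ), IsFam n D → OrM n A D b G C →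
    ∀ (p : Ω × Fin n → ℝ), IsLaw p →
    ∀ (Θ : Type) [Fintype Θ] (q : Θ → ℝ) (l1 l2 l3 : Θ → Ω) (s0 s1 t t' τ v : Θ → Fin n),
    CfgT A D p q l1 l2 l3 s0 s1 t t' τ v →
    2 * aa p - hh A D p + (b - 1) * ph A D q l1 l3 s0 s1 t t' ≤
      b * (H q (fun z => (s0 z, t z, t' z, cell A D (t z) (l1 z), cell A D (t' z) (l3 z))) -
        H q (fun z => (s0 z, t z, t' z))) + (b + G - 1) * wT q l1 l3 s0 s1 t t' +
        5 * lam p + (C + C' * (1 + sep p)) ∧
    wT q l1 l3 s0 s1 t t' ≤ 2 * lam p + (C + C' * (1 + sep p))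

theorem UPL (hCOST : S_COST) (hINT : S_INT) (hOC : S_OCM) (hG0 : S_G0) (hG3 : S_G3)
    (hG4 : S_G4) (hG6 : S_G6) (hG9 : S_G9) : S_UPL := by
  intro d b G hb hG
  refine ⟨1000 * ((d : ℝ) + 1) * (b + G + 1), by positivity, ?_⟩
  intro C hC n Ω _ A D hfam hO p hp Θ _ q l1 l2 l3 s0 s1 t t' τ v hc
  have hq := hc.law
  obtain ⟨Y, hY⟩ : ∃ Y : Θ → ℤ, Y = fun z => yy (s0 z) (s1 z) (t z) (t' z) := ⟨_, rfl⟩
  obtain ⟨Z, hZ⟩ : ∃ Z : Θ → Fin d → ℤ, Z = fun z => cz A D (s1 z) (Y z) (l1 z) (l3 z) := ⟨_, rfl⟩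
  have hph : ph A D q l1 l3 s0 s1 t t' = H q (fun z => (s0 z, s1 z, Y z, Z z)) -
      H q (fun z => (s0 z, s1 z, Y z)) := by
    simp only [ph, hZ, hY]
  have hYd : ∀ x y, s0 x = s0 y → s1 x = s1 y → t x = t y → t' x = t' y → Y x = Y y := by
    intro x y h1 h2 h3 h4
    simp only [hY, h1, h2, h3, h4]
  have hZd : ∀ x y, s1 x = s1 y → Y x = Y y → l1 x = l1 y → l3 x = l3 y → Z x = Z y := by
    intro x y h1 h2 h3 h4
    simp only [hZ, h1, h2, h3, h4]
  -- abbreviations for the expectations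
  obtain ⟨e1, he1⟩ : ∃ e1, e1 = EE q (fun z => psi n (t z) (s0 z)) := ⟨_, rfl⟩
  obtain ⟨e2, he2⟩ : ∃ e2, e2 = EE q (fun z => psi n (t z) (s1 z)) := ⟨_, rfl⟩
  obtain ⟨e3, he3⟩ : ∃ e3, e3 = EE q (fun z => psi n (t' z) (s0 z)) := ⟨_, rfl⟩
  have b1 : e1 ≤ sep p := he1 ▸ hc.c2
  have b2 : e2 ≤ sep p := he2 ▸ hc.c3
  have b3 : e3 ≤ sep p := he3 ▸ hc.c4
  have hpn : ∀ (i j : Fin n), 0 ≤ psi n i j := fun i j => psi_nonneg i.2 j.2
  have n1 : 0 ≤ e1 := by
    rw [he1]; exact Finset.sum_nonneg fun z _ => mul_nonneg (hq.nonneg z) (hpn _ _)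
  have n2 : 0 ≤ e2 := by
    rw [he2]; exact Finset.sum_nonneg fun z _ => mul_nonneg (hq.nonneg z) (hpn _ _)
  have n3 : 0 ≤ e3 := by
    rw [he3]; exact Finset.sum_nonneg fun z _ => mul_nonneg (hq.nonneg z) (hpn _ _)
  -- sizes of Y
  have h9 := fun z => hG9 n (s0 z) (s1 z) (t z) (t' z) (s0 z) (s0 z) (s0 z).2 (s1 z).2 (t z).2
    (t' z).2 (s0 z).2 (s0 z).2
  -- H Y
  have hHY : H q Y ≤ Real.log n + 9 + 2 * e1 := by
    have h := hINT Θ q Y n hq hfam.pos
    have h2 : EE q (fun z => Real.log (1 + |(Y z : ℝ)| / n)) ≤ 3 + e1 := by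
      rw [he1, ← EE_const hq 3, ← EE_add]
      refine EE_mono hq fun z _ => ?_
      have := (h9 z).2.2.1
      rw [hY]
      exact this
    have h3 : ∑ x, q x * Real.log (1 + |(Y x : ℝ)| / n) =
      EE q (fun z => Real.log (1 + |(Y z : ℝ)| / n)) := rfl
    rw [h3] at h
    linarith
  -- cost of t'
  have ce : ∀ {α γ : Type} (f : Θ → α) (k : Θ → γ), Det q f (fun z => (s0 z, s1 z, t z, Y z)) →
      Det q (fun z => (f z, t' z)) k → H q k ≤ H q f + (3 + e2 + e1) := by
    intro α γ f k hf hk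
    have h := cost hCOST hq (f := f) (g := t') (k := k)
      (fun z => 3 + psi n (t z) (s1 z) + psi n (t z) (s0 z)) hk (by
        intro x hx
        obtain ⟨T, hT1, hT2⟩ := hG6 n (s0 x) (s1 x) (t x) (s0 x).2 (s1 x).2 (t x).2 (Y x)
        refine ⟨T, ?_, hT2⟩
        intro y hy hfy
        have h1 := hf y x hy hx hfy
        simp only [Prod.mk.injEq] at h1
        obtain ⟨h2, h3, h4, h5⟩ := h1
        apply hT1
        rw [← h5, ← h2, ← h3, ← h4, hY])
    have h2 : EE q (fun z => 3 + psi n (t z) (s1 z) + psi n (t z) (s0 z)) = 3 + e2 + e1 := by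
      rw [EE_add (fun z => 3 + psi n (t z) (s1 z)) (fun z => psi n (t z) (s0 z)),
        EE_add (fun z => (3 : ℝ)) (fun z => psi n (t z) (s1 z)), EE_const hq, he1, he2]
    rw [h2] at h
    exact h
  -- cost of l3
  have cf : H q (fun z => (l1 z, l3 z, s0 z, s1 z, Y z)) ≤
      H q (fun z => ((s0 z, s1 z, Y z, Z z), l1 z)) + d * (6 + e3 + e2 + e1) := by
    have h := cost hCOST hq (f := fun z => ((s0 z, s1 z, Y z, Z z), l1 z)) (g := l3)
      (k := fun z => (l1 z, l3 z, s0 z, s1 z, Y z)) (fun z => d * (3 + phi n (Y z))) (by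
        intro x y _ _ h
        simp only [Prod.mk.injEq] at h ⊢
        tauto) (by
        intro x hx
        refine ⟨Finset.univ.filter fun ω => cz A D (s1 x) (Y x) (l1 x) ω = Z x, ?_, ?_⟩
        · intro y hy hfy
          simp only [Prod.mk.injEq] at hfy
          obtain ⟨⟨h1, h2, h3, h4⟩, h5⟩ := hfy
          rw [Finset.mem_filter]
          refine ⟨Finset.mem_univ _, ?_⟩
          rw [← h4, ← h2, ← h3, ← h5]
          simp only [hZ]
        · refine hG3 d n Ω D hfam (Y x) (fun i => ⌊A (l1 x) i + (s1 x : ℝ) * D (l1 x) i⌋) (Z x) _ ?_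
          intro ω hω
          rw [Finset.mem_filter] at hω
          refine ⟨fun i => A (l1 x) i + (s1 x : ℝ) * D (l1 x) i, fun i => rfl, fun i => ?_⟩
          have := congrFun hω.2 i
          simpa only [cz] using this)
    refine h.trans ?_
    have h2 : EE q (fun z => d * (3 + phi n (Y z))) ≤ d * (6 + e3 + e2 + e1) := by
      have h3 : EE q (fun z => d * (3 + phi n (Y z))) ≤
          EE q (fun z => d * (((6 + psi n (t' z) (s0 z)) + psi n (t z) (s1 z)) +
            psi n (t z) (s0 z))) := by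
        refine EE_mono hq fun z _ => ?_
        have h4 := (h9 z).2.1
        have h5 : phi n (Y z) ≤ 3 + psi n (t' z) (s0 z) + psi n (t z) (s1 z)
            + psi n (t z) (s0 z) := by
          rw [hY]; exact h4
        have hd : (0 : ℝ) ≤ d := Nat.cast_nonneg d
        nlinarith
      refine h3.trans (le_of_eq ?_)
      rw [EE_mul, EE_add (fun z => (6 + psi n (t' z) (s0 z)) + psi n (t z) (s1 z))
        (fun z => psi n (t z) (s0 z)), EE_add (fun z => (6 + psi n (t' z) (s0 z)))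
        (fun z => psi n (t z) (s1 z)), EE_add (fun z => (6 : ℝ)) (fun z => psi n (t' z) (s0 z)),
        EE_const hq, he1, he2, he3]
    linarith
  -- cost of Z
  have cg : H q (fun z => ((s0 z, s1 z, Y z, Z z), t z, cell A D (t z) (l1 z))) ≤
      H q (fun z => ((s0 z, s1 z, Y z, t z, t' z), cell A D (t z) (l1 z),
        cell A D (t' z) (l3 z))) + d * (6 + 2 * e1) := by
    have h := cost hCOST hq (f := fun z => ((s0 z, s1 z, Y z, t z, t' z), cell A D (t z) (l1 z),
        cell A D (t' z) (l3 z))) (g := Z)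
      (k := fun z => ((s0 z, s1 z, Y z, Z z), t z, cell A D (t z) (l1 z)))
      (fun z => d * (6 + 2 * psi n (t z) (s0 z))) (by
        intro x y _ _ h
        simp only [Prod.mk.injEq] at h ⊢
        tauto) (by
        intro x hx
        by_cases hts : (t x : ℕ) = (s0 x : ℕ)
        · -- degenerate case
          refine ⟨Finset.univ.image fun w : Ω × Ω => cz A D (s1 x) (Y x) w.1 w.2, ?_, ?_⟩
          · intro y hy hfy
            simp only [Prod.mk.injEq] at hfy
            obtain ⟨⟨h1, h2, h3, h4, h5⟩, h6, h7⟩ := hfy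
            rw [Finset.mem_image]
            refine ⟨(l1 y, l3 y), Finset.mem_univ _, ?_⟩
            rw [← h2, ← h3]
            simp only [hZ]
          · have h0 := hG0 d n Ω D hfam
            have hpos : 0 < (Finset.univ.image
                fun w : Ω × Ω => cz A D (s1 x) (Y x) w.1 w.2).card :=
              Finset.card_pos.mpr ⟨_, Finset.mem_image_of_mem _ (Finset.mem_univ (l1 x, l3 x))⟩
            have hle : (Finset.univ.image
                fun w : Ω × Ω => cz A D (s1 x) (Y x) w.1 w.2).card ≤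
                Fintype.card Ω * Fintype.card Ω := by
              refine Finset.card_image_le.trans ?_
              rw [Finset.card_univ, Fintype.card_prod]
            have hcΩ : 0 < Fintype.card Ω := Fintype.card_pos_iff.mpr ⟨l1 x⟩
            have h1 : Real.log ((Finset.univ.image
                fun w : Ω × Ω => cz A D (s1 x) (Y x) w.1 w.2).card : ℝ) ≤
                Real.log (Fintype.card Ω) + Real.log (Fintype.card Ω) := by
              rw [← Real.log_mul (by positivity) (by positivity)]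
              apply Real.log_le_log (by exact_mod_cast hpos)
              exact_mod_cast hle
            have h2 : psi n (t x) (s0 x) = Real.log n := by
              unfold psi
              rw [hts, sub_self, abs_zero, max_eq_left zero_le_one, div_one]
            rw [h2]
            have hd : (0 : ℝ) ≤ d := Nat.cast_nonneg d
            nlinarith
        · -- generic case
          have htsr : ((t x : ℕ) : ℝ) ≠ ((s0 x : ℕ) : ℝ) := fun h => hts (by exact_mod_cast h)
          set ρ : ℝ := (((s1 x : ℕ) : ℝ) - (s0 x : ℕ)) / (((t x : ℕ) : ℝ) - (s0 x : ℕ)) with hρ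
          obtain ⟨T, hT1, hT2⟩ := comb_cell hG4 ρ (cell A D (t x) (l1 x)) (cell A D (t' x) (l3 x))
          refine ⟨T, ?_, ?_⟩
          · intro y hy hfy
            simp only [Prod.mk.injEq] at hfy
            obtain ⟨⟨h1, h2, h3, h4, h5⟩, h6, h7⟩ := hfy
            have hinc := hc.i0 y hy
            have hmem := hT1 (fun i => A (l1 y) i + ((t x : ℕ) : ℝ) * D (l1 y) i)
              (fun i => A (l3 y) i + ((t' x : ℕ) : ℝ) * D (l3 y) i)
              (fun i => (A (l1 y) i + ((s0 x : ℕ) : ℝ) * D (l1 y) i) -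
                (A (l3 y) i + ((s0 x : ℕ) : ℝ) * D (l3 y) i))
              (fun i => ((Y x : ℝ) - (1 - ρ) * (((t' x : ℕ) : ℝ) - (s0 x : ℕ))) * D (l3 y) i)
              (fun i => A (l1 y) i + ((s1 x : ℕ) : ℝ) * D (l1 y) i + (Y x : ℝ) * D (l3 y) i)
              (fun i => by
                have := congrFun h6 i
                rw [h4] at this
                simpa only [cell] using this)
              (fun i => by
                have := congrFun h7 i
                rw [h5] at this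
                simpa only [cell] using this)
              (fun i => by
                have := congrFun hinc i
                rw [h1] at this
                simp only [cell] at this
                exact same_floor this)
              (fun i => by
                have hr : |(Y x : ℝ) - (1 - ρ) * (((t' x : ℕ) : ℝ) - (s0 x : ℕ))| ≤ 1 / 2 := by
                  have hy1 : Y x = round ((((t' x : ℕ) : ℝ) - (s0 x : ℕ)) *
                      (((t x : ℕ) : ℝ) - (s1 x : ℕ)) / (((t x : ℕ) : ℝ) - (s0 x : ℕ))) := by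
                    rw [hY]; rfl
                  have hy2 : (1 - ρ) * (((t' x : ℕ) : ℝ) - (s0 x : ℕ)) =
                      (((t' x : ℕ) : ℝ) - (s0 x : ℕ)) *
                      (((t x : ℕ) : ℝ) - (s1 x : ℕ)) / (((t x : ℕ) : ℝ) - (s0 x : ℕ)) := by
                    have : ((t x : ℕ) : ℝ) - (s0 x : ℕ) ≠ 0 := sub_ne_zero.mpr htsr
                    rw [hρ]
                    field_simp
                    ring
                  rw [hy2, hy1, abs_sub_comm]
                  exact abs_sub_round _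
                rw [abs_mul, abs_of_nonneg (hfam.lo _ _)]
                have h8 := hfam.hi (l3 y) i
                have h9 := hfam.lo (l3 y) i
                nlinarith [abs_nonneg ((Y x : ℝ) - (1 - ρ) * (((t' x : ℕ) : ℝ) - (s0 x : ℕ)))])
              (fun i => by
                have h8 := pt_comb htsr (A (l1 y) i) (D (l1 y) i) ((s1 x : ℕ) : ℝ)
                rw [← hρ] at h8
                rw [h8]
                ring)
            have hgoal : Z y = fun i => ⌊A (l1 y) i + ((s1 x : ℕ) : ℝ) * D (l1 y) i +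
                (Y x : ℝ) * D (l3 y) i⌋ := by
              rw [← h2, ← h3]
              simp only [hZ]
              rfl
            rw [hgoal]
            exact hmem
          · refine hT2.trans ?_
            have h1 := log_ratio (t x).2 (s0 x).2 (s1 x).2 hts
            have h2 := hpn (t x) (s0 x)
            have hd : (0 : ℝ) ≤ d := Nat.cast_nonneg d
            apply mul_le_mul_of_nonneg_left _ hd
            rw [hρ]
            linarith)
    refine h.trans ?_
    have h2 : EE q (fun z => d * (6 + 2 * psi n (t z) (s0 z))) = d * (6 + 2 * e1) := by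
      rw [EE_mul, EE_add (fun z => (6 : ℝ)) (fun z => 2 * psi n (t z) (s0 z)), EE_const hq,
        EE_mul, he1]
    linarith
  -- heights
  have ht := H_height hq t
  have hs0 := H_height hq s0
  have hs1 := H_height hq s1
  -- entropy relations
  have r1 := ce (fun z => (l1 z, l3 z, s0 z, s1 z, Y z, t z))
    (fun z => (l1 z, l3 z, s0 z, s1 z, t z, t' z)) (by
      intro x y _ _ h; simp only [Prod.mk.injEq] at h ⊢; tauto) (by
      intro x y _ _ h; simp only [Prod.mk.injEq] at h ⊢; tauto)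
  have r2 : H q (fun z => (l1 z, l3 z, s0 z, s1 z, Y z, t z)) ≤
      H q (fun z => (l1 z, l3 z, s0 z, s1 z, Y z)) + H q t := subadd hq (by
      intro x y _ _ h; simp only [Prod.mk.injEq] at h ⊢; tauto)
  have r3 : H q (fun z => (l1 z, l3 z, s0 z, s1 z, Y z)) ≤
      H q (fun z => (l1 z, l3 z, s0 z, s1 z)) + H q Y := subadd hq (by
      intro x y _ _ h; simp only [Prod.mk.injEq] at h ⊢; tauto)
  have r4 : H q (fun z => (s1 z, Y z)) ≤ H q s1 + H q Y := subadd hq (by
      intro x y _ _ h; simp only [Prod.mk.injEq] at h ⊢; tauto)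
  have r5 : H q (fun z => (s0 z, s1 z, Y z)) ≤ H q s0 + H q (fun z => (s1 z, Y z)) := subadd hq (by
      intro x y _ _ h; simp only [Prod.mk.injEq] at h ⊢; tauto)
  have r6 := ce (fun z => (s0 z, s1 z, Y z, t z)) (fun z => (s0 z, s1 z, Y z, t z, t' z)) (by
      intro x y _ _ h; simp only [Prod.mk.injEq] at h ⊢; tauto) (by
      intro x y _ _ h; simp only [Prod.mk.injEq] at h ⊢; tauto)
  have r7 : H q (fun z => (s0 z, s1 z, Y z, t z)) ≤ H q (fun z => (s0 z, s1 z, Y z)) + H q t :=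
    subadd hq (by intro x y _ _ h; simp only [Prod.mk.injEq] at h ⊢; tauto)
  have r8 : H q (fun z => ((s0 z, s1 z, Y z, t z, t' z), cell A D (t z) (l1 z),
        cell A D (t' z) (l3 z))) + H q (fun z => (s0 z, t z, t' z)) ≤
      H q (fun z => (s0 z, s1 z, Y z, t z, t' z)) +
      H q (fun z => (s0 z, t z, t' z, cell A D (t z) (l1 z), cell A D (t' z) (l3 z))) :=
    submod' hq (by intro x y _ _ h; simp only [Prod.mk.injEq] at h ⊢; tauto)
      (by intro x y _ _ h; simp only [Prod.mk.injEq] at h ⊢; tauto)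
      (by intro x y _ _ h; simp only [Prod.mk.injEq] at h ⊢; tauto)
  have r9 : H q (fun z => (l1 z, l3 z, s0 z, s1 z, Y z, t z)) +
      H q (fun z => (s0 z, s1 z, Y z, Z z)) ≤
      H q (fun z => (l1 z, l3 z, s0 z, s1 z, Y z)) +
      H q (fun z => ((s0 z, s1 z, Y z, Z z), t z)) :=
    submod' hq (by
      intro x y _ _ h
      simp only [Prod.mk.injEq] at h ⊢
      obtain ⟨h1, h2, h3, h4, h5⟩ := h
      exact ⟨h3, h4, h5, hZd x y h4 h5 h1 h2⟩)
      (by intro x y _ _ h; simp only [Prod.mk.injEq] at h ⊢; tauto)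
      (by intro x y _ _ h; simp only [Prod.mk.injEq] at h ⊢; tauto)
  have r10 : H q (fun z => (l1 z, l3 z, s0 z, s1 z, Y z, t z)) +
      H q (fun z => ((s0 z, s1 z, Y z, Z z), l1 z)) ≤
      H q (fun z => (l1 z, l3 z, s0 z, s1 z, Y z)) +
      H q (fun z => ((s0 z, s1 z, Y z, Z z), l1 z, t z)) :=
    submod' hq (by
      intro x y _ _ h
      simp only [Prod.mk.injEq] at h ⊢
      obtain ⟨h1, h2, h3, h4, h5⟩ := h
      exact ⟨⟨h3, h4, h5, hZd x y h4 h5 h1 h2⟩, h1⟩)
      (by intro x y _ _ h; simp only [Prod.mk.injEq] at h ⊢; tauto)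
      (by intro x y _ _ h; simp only [Prod.mk.injEq] at h ⊢; tauto)
  have orc := hOC d n Ω A D b G C hO Θ _ q l1 t (fun z => (s0 z, s1 z, Y z, Z z)) hq
  -- cost inequality for the total
  rw [hph]
  have r1' : H q (fun z => (l1 z, l3 z, s0 z, s1 z, t z, t' z)) ≤
      H q (fun z => (l1 z, l3 z, s0 z, s1 z, Y z, t z)) + (3 + e2 + e1) := r1
  have h8' : H q (fun z => ((s0 z, s1 z, Y z, t z, t' z), cell A D (t z) (l1 z),
        cell A D (t' z) (l3 z))) + H q (fun z => (s0 z, t z, t' z)) ≤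
      H q (fun z => (s0 z, s1 z, Y z, t z, t' z)) +
      H q (fun z => (s0 z, t z, t' z, cell A D (t z) (l1 z), cell A D (t' z) (l3 z))) := r8
  have hw : wT q l1 l3 s0 s1 t t' = Real.log n -
      (H q (fun z => (l1 z, l3 z, s0 z, s1 z, Y z, t z)) -
        H q (fun z => (l1 z, l3 z, s0 z, s1 z, Y z))) := by
    simp only [wT, hY]
  rw [hw]
  exact upl_alg d b G C (Real.log n) (lam p) (sep p) (aa p) (hh A D p) _ _ _ _ _ _ _ _ _ _ _ _ _ _
    _ _ e1 e2 e3 _ _ _ _ (Nat.cast_nonneg d) hb hG hC n1 n2 n3 b1 b2 b3 ht hs0 hs1 hHY hc.f1 hc.f2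
    r1' r3 r4 r5 r6 r7 h8' r9 r10 cf cg orc

end Pool.Agent.Y587.HK
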