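import Pool.Agent.Y254.HK.StmG
import Pool.Agent.Y624.HK.CFGU
import Pool.Agent.Y244.HM.Final
import Pool.Agent.Y587.HK.Upl
import Pool.Agent.Y587.HK.Ktl

set_option autoImplicit false

/-! # The pure core with losses (statement COREP of the project HK) -/

open Finset
open scoped Classical

namespace Pool.Agent.Y587.HK
open Pool.Agent.W904.AK Pool.Agent.W46.HD Pool.Agent.W46.HM Pool.Agent.Y244.HM
  Pool.Agent.Y254HK Pool.Agent

/-- The arithmetic of the step. -/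
theorem step_alg' (b G a h L pp ph w w' E1 E2 : ℝ) (hb : 1 < b) (hG : 0 ≤ G)
    (hc : pp ≤ 2 * h)
    (u1 : 2 * a - h + (b - 1) * ph ≤ b * pp + (b + G - 1) * w + 5 * L + E1)
    (u2 : w ≤ 2 * L + E1)
    (k1 : w + w' ≤ 3 * L + E2)
    (k2 : 3 * a - 2 * h + (b - 1) * (a + pp - 2 * h) ≤
      b * (h + ph) + G * w' - b * w + (4 * b + 4) * L + E2) :
    (b ^ 2 + 3 * b - 2) * a ≤ (3 * b ^ 2 + 2 * b - 2) * h +
      (4 * b ^ 2 + 5 * b - 4 + (3 * b - 1) * G) * L +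
      ((b + G) * E1 + ((b - 1) + (b - 1) * G) * E2) := by
  have e1 := mul_le_mul_of_nonneg_left u1 (by linarith : 0 ≤ b)
  have e2 := mul_le_mul_of_nonneg_left u2 hG
  have e3 := mul_le_mul_of_nonneg_left k1 (mul_nonneg (by linarith : 0 ≤ b - 1) hG)
  have e4 := mul_le_mul_of_nonneg_left k2 (by linarith : 0 ≤ b - 1)
  have e5 := mul_le_mul_of_nonneg_left hc (by linarith : 0 ≤ 2 * b - 1)
  nlinarith

theorem upl : S_UPL := UPL W85.HD.COST W85.HD.INT OCM W975.HD.G0 W975.HD.G3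
  W505.HD.G4 W505.HD.G6 W505.HD.G9

theorem ktl : S_KTL := KTL W85.HD.COST W85.HD.INT OCM W975.HD.G0 W975.HD.G1 W975.HD.G3
  W505.HD.G4 W505.HD.G5 W505.HD.G6 W505.HD.G9

theorem t_corep : S_COREP := by
  intro d b G hb hb2 hG hall ε hε
  obtain ⟨C1, hC1, h1⟩ := upl d b G hb hG
  obtain ⟨C2, hC2, h2⟩ := ktl d b G hb hG
  obtain ⟨κ, hκ⟩ : ∃ κ, κ = (b + G) + ((b - 1) + (b - 1) * G) := ⟨_, rfl⟩
  have hb1 : 0 ≤ b - 1 := by linarith
  have hκ0 : 0 < κ := by rw [hκ]; positivity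
  obtain ⟨C0, hC0, hO⟩ := hall (ε / κ) (div_pos hε hκ0)
  obtain ⟨c, hc⟩ : ∃ c, c = (b + G) * C1 + ((b - 1) + (b - 1) * G) * C2 := ⟨_, rfl⟩
  have hc0 : 0 ≤ c := by rw [hc]; positivity
  refine ⟨κ * C0 + c, by positivity, ?_⟩
  intro n Ω _ A D hF p hp S hS hang
  obtain ⟨Θ, _, q, l1, l2, l3, s0, s1, t, t', τ, v, hcf⟩ :=
    Pool.Agent.Y624.HK.t_cfgu Ω d n A D p S hF.pos hp hS hang
  have hct := hcf.toCfgT
  obtain ⟨E0, hE0⟩ : ∃ E0, E0 = ε / κ * Real.log n + C0 := ⟨_, rfl⟩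
  have hlog : 0 ≤ Real.log n := Real.log_nonneg (by exact_mod_cast hF.pos)
  have hE00 : 0 ≤ E0 := by
    rw [hE0]
    have : 0 ≤ ε / κ := (div_pos hε hκ0).le
    positivity
  have hOr : OrM n A D b G E0 := by
    rw [hE0]
    exact hO n Ω A D hF
  obtain ⟨u1, u2⟩ := h1 E0 hE00 n Ω A D hF hOr p hp Θ q l1 l2 l3 s0 s1 t t' τ v hct
  obtain ⟨w', k1, k2⟩ := h2 E0 hE00 n Ω A D hF hOr p hp Θ q l1 l2 l3 s0 s1 t t' τ v hct
  rw [hct.pp] at k2
  have k3 := Pool.Agent.W976.HD.pair_le hct.law s0 t t' (fun z => cell A D (t z) (l1 z))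
    (fun z => cell A D (t' z) (l3 z))
  have k4 : H q (fun z => (s0 z, t z, t' z, cell A D (t z) (l1 z), cell A D (t' z) (l3 z))) -
      H q (fun z => (s0 z, t z, t' z)) ≤ 2 * hh A D p := by
    have e1 := hct.ht
    have e2 := hct.ht'
    linarith
  have k5 := step_alg' b G (aa p) (hh A D p) (lam p) _ _ _ w' _ _ hb hG k4 u1 u2 k1 k2
  have hsep := hcf.sep_le
  have k6 : (b + G) * (E0 + C1 * (1 + sep p)) +
      ((b - 1) + (b - 1) * G) * (E0 + C2 * (1 + sep p)) = κ * E0 + c * (1 + sep p) := by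
    rw [hκ, hc]
    ring
  have k7 : c * (1 + sep p) ≤ c * (1 + S) := mul_le_mul_of_nonneg_left (by linarith) hc0
  have k8 : κ * E0 = ε * Real.log n + κ * C0 := by
    rw [hE0]
    field_simp
  have hS0 : 0 ≤ S := by
    refine le_trans ?_ (hct.c2.trans hsep)
    exact Finset.sum_nonneg fun z _ => mul_nonneg (hct.law.nonneg z)
      (psi_nonneg (t z).2 (s0 z).2)
  have k9 : κ * C0 * 1 ≤ κ * C0 * (1 + S) :=
    mul_le_mul_of_nonneg_left (by linarith) (by positivity)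
  rw [k6, k8] at k5
  rw [zero_mul, add_zero]
  have k10 : (κ * C0 + c) * (1 + S) = κ * C0 * (1 + S) + c * (1 + S) := by ring
  rw [k10]
  linarith

end Pool.Agent.Y587.HK
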